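import Mathlib
import Pool.Agent.W761.CB.Stms
import Pool.Agent.W975.CB.Ms
import Pool.Agent.W366.CB.Lam
import Pool.Agent.W417.CB.Ebc

set_option autoImplicit false

open MeasureTheory
open scoped ENNReal

namespace Pool.Agent.W880.CB

open Pool.Agent.W761.CB

theorem lamAll : S_LAM := Pool.Agent.W366.CB.proof_lam Pool.Agent.W975.CB.proof_ms

theorem ebcAll : S_EBC := Pool.Agent.W417.CB.proof_ebc Pool.Agent.W975.CB.proof_ms lamAll

theorem measurable_pr {n : ℕ} {L : ℝ} : Measurable (pr (n := n) L) := by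
  refine measurable_pi_lambda _ fun c => ?_
  exact (AddCircle.continuous_mk' L).measurable.comp (measurable_pi_apply c)

theorem tonelli3 {A B G : Type} [MeasurableSpace A] [MeasurableSpace B] [MeasurableSpace G]
    (μA : Measure A) (μB : Measure B) (μG : Measure G) [SFinite μA] [SFinite μB] [SFinite μG]
    (g : A → B → G → ℝ≥0∞) (hg : Measurable fun q : (A × B) × G => g q.1.1 q.1.2 q.2) :
    ∫⁻ a, ∫⁻ b, ∫⁻ c, g a b c ∂μG ∂μB ∂μA = ∫⁻ c, ∫⁻ a, ∫⁻ b, g a b c ∂μB ∂μA ∂μG := by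
  have e2 : ∀ a, ∫⁻ b, ∫⁻ c, g a b c ∂μG ∂μB = ∫⁻ c, ∫⁻ b, g a b c ∂μB ∂μG := by
    intro a
    have h4' : Measurable fun q : B × G => (((a, q.1), q.2) : (A × B) × G) :=
      (measurable_const.prodMk measurable_fst).prodMk measurable_snd
    have h4 : Measurable fun q : B × G => g a q.1 q.2 := hg.comp h4'
    exact lintegral_lintegral_swap h4.aemeasurable
  simp_rw [e2]
  have h6' : Measurable fun q : (A × G) × B => (((q.1.1, q.2), q.1.2) : (A × B) × G) :=
    (measurable_fst.fst.prodMk measurable_snd).prodMk measurable_fst.snd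
  have h6 : Measurable fun q : (A × G) × B => g q.1.1 q.2 q.1.2 := hg.comp h6'
  have h5 : Measurable fun q : A × G => ∫⁻ b, g q.1 b q.2 ∂μB := h6.lintegral_prod_right'
  exact lintegral_lintegral_swap h5.aemeasurable

theorem po2 (hF : S_FIB) : S_PO2 := by
  intro n L m C _ μ K hK hC hPO F hFe r hr hrL
  have hfin : IsFiniteMeasure (lam (volume : Measure (Tor n L))) := (lamAll _ _).2.1
  obtain ⟨-, -, -, -, hmeas, -, -, -, -, -, -, -⟩ := ebcAll (Tor n L) volume F F hFe hFe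
  have h2 : Measurable fun q : ((Fin n → ℝ) × Tor n L) × Cf (Tor n L) =>
      ((q.1.2 + pr L q.1.1, q.2) : Tor n L × Cf (Tor n L)) :=
    ((measurable_fst.snd).add (measurable_pr.comp measurable_fst.fst)).prodMk measurable_snd
  have h3 : Measurable fun q : ((Fin n → ℝ) × Tor n L) × Cf (Tor n L) =>
      ((q.1.2, q.2) : Tor n L × Cf (Tor n L)) := (measurable_fst.snd).prodMk measurable_snd
  have hj : Measurable fun q : ((Fin n → ℝ) × Tor n L) × Cf (Tor n L) =>
      ‖F ((q.1.2 + pr L q.1.1) ::ₘ ms q.2) - F (q.1.2 ::ₘ ms q.2)‖ₑ ^ 2 :=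
    ((hmeas.comp h2).sub (hmeas.comp h3)).enorm.pow_const 2
  have e1 := tonelli3 ((volume : Measure (Fin n → ℝ)).restrict (cube n r))
    (volume : Measure (Tor n L)) (lam (volume : Measure (Tor n L)))
    (fun z x γ => ‖F ((x + pr L z) ::ₘ ms γ) - F (x ::ₘ ms γ)‖ₑ ^ 2) hj
  have e2 : ∫⁻ z in cube n r, ∫⁻ x, dE volume F (x + pr L z) x =
      ∫⁻ γ, (∫⁻ z in cube n r, d1 (fun x => F (x ::ₘ ms γ)) (pr L z))
        ∂(lam (volume : Measure (Tor n L))) := e1
  rw [e2, ← hF n L μ K hK F hFe, ← lintegral_const_mul' _ _ ENNReal.ofReal_ne_top]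
  refine lintegral_mono fun γ => ?_
  obtain ⟨B, b, hB, hb, hbd⟩ := hFe.bdd
  refine hPO (fun x => F (x ::ₘ ms γ)) ?_ ⟨B * b ^ (Multiset.card (ms γ) + 1), fun x => ?_⟩ r hr hrL
  · have h7 : Measurable fun x : Tor n L => ((x, γ) : Tor n L × Cf (Tor n L)) :=
      measurable_id.prodMk measurable_const
    exact hmeas.comp h7
  · have := hbd (x ::ₘ ms γ)
    rwa [Multiset.card_cons] at this

end Pool.Agent.W880.CB
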