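import Mathlib
import Pool.Agent.W761.CB.Stms

set_option autoImplicit false

open MeasureTheory
open scoped ENNReal

namespace Pool.Agent.W880.CB

open Pool.Agent.W761.CB

theorem pair_int {T : Type} [MeasurableSpace T] [AddCommGroup T] [MeasurableAdd₂ T] [MeasurableNeg T]
    (ν : Measure T) [IsFiniteMeasure ν] [ν.IsAddLeftInvariant] {N : ℕ}
    (w : T → T → ℝ≥0∞) (hw : Measurable fun p : T × T => w p.1 p.2) (c : ℝ≥0∞)
    (hc : ∀ x, ∫⁻ y, w x y ∂ν ≤ c) (i j : Fin N) (hij : i ≠ j) :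
    ν Set.univ * ∫⁻ x : Fin N → T, w (x i) (x j) ∂(Measure.pi fun _ => ν) ≤
      c * (ν Set.univ) ^ N := by
  classical
  have h1 : ∀ h : T, ∫⁻ x : Fin N → T, w (x i) (x j + h) ∂(Measure.pi fun _ => ν) =
      ∫⁻ x : Fin N → T, w (x i) (x j) ∂(Measure.pi fun _ => ν) := by
    intro h
    have h2 := lintegral_add_right_eq_self (μ := Measure.pi fun _ : Fin N => ν)
      (fun x : Fin N → T => w (x i) (x j)) (Pi.single j h)
    rw [← h2]
    refine lintegral_congr fun x => ?_
    rw [Pi.add_apply, Pi.add_apply, Pi.single_eq_same, Pi.single_eq_of_ne hij, add_zero]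
  have h3 : ν Set.univ * ∫⁻ x : Fin N → T, w (x i) (x j) ∂(Measure.pi fun _ => ν) =
      ∫⁻ h, ∫⁻ x : Fin N → T, w (x i) (x j + h) ∂(Measure.pi fun _ => ν) ∂ν := by
    simp_rw [h1]
    rw [lintegral_const, mul_comm]
  have h4' : Measurable fun q : T × (Fin N → T) => ((q.2 i, q.2 j + q.1) : T × T) :=
    ((measurable_pi_apply i).comp measurable_snd).prodMk
      (((measurable_pi_apply j).comp measurable_snd).add measurable_fst)
  have h4 : Measurable fun q : T × (Fin N → T) => w (q.2 i) (q.2 j + q.1) := hw.comp h4'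
  rw [h3, lintegral_lintegral_swap h4.aemeasurable]
  have h5 : ∀ x : Fin N → T, ∫⁻ h, w (x i) (x j + h) ∂ν ≤ c := by
    intro x
    rw [lintegral_add_left_eq_self (fun y => w (x i) y) (x j)]
    exact hc _
  calc ∫⁻ x : Fin N → T, ∫⁻ h, w (x i) (x j + h) ∂ν ∂(Measure.pi fun _ => ν)
      ≤ ∫⁻ _ : Fin N → T, c ∂(Measure.pi fun _ => ν) := lintegral_mono h5
    _ = c * (ν Set.univ) ^ N := by
      rw [lintegral_const, Measure.pi_univ, Finset.prod_const, Finset.card_univ, Fintype.card_fin]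

theorem meas_pair {T : Type} [MeasurableSpace T] {N : ℕ} (w : T → T → ℝ≥0∞)
    (hw : Measurable fun p : T × T => w p.1 p.2) (i j : Fin N) :
    Measurable fun x : Fin N → T => w (x i) (x j) := by
  have h1 : Measurable fun x : Fin N → T => ((x i, x j) : T × T) :=
    (measurable_pi_apply i).prodMk (measurable_pi_apply j)
  exact hw.comp h1

theorem sum_int {T : Type} [MeasurableSpace T] (ν : Measure T) [IsFiniteMeasure ν] {N : ℕ}
    (w : T → T → ℝ≥0∞) (hw : Measurable fun p : T × T => w p.1 p.2) (c : ℝ≥0∞) :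
    ∫⁻ x : Fin N → T, (∑ i : Fin N, ∑ j ∈ Finset.univ.filter fun j => i < j, w (x i) (x j)) * c
      ∂(Measure.pi fun _ => ν) = (∑ i : Fin N, ∑ j ∈ Finset.univ.filter fun j => i < j,
        ∫⁻ x : Fin N → T, w (x i) (x j) ∂(Measure.pi fun _ => ν)) * c := by
  have hs : ∀ i : Fin N, Measurable fun x : Fin N → T =>
      ∑ j ∈ Finset.univ.filter fun j => i < j, w (x i) (x j) := fun i =>
    Finset.measurable_sum _ fun j _ => meas_pair w hw i j
  rw [lintegral_mul_const _ (Finset.measurable_sum _ fun i _ => hs i),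
    lintegral_finsetSum _ (fun i _ => hs i)]
  congr 1
  refine Finset.sum_congr rfl fun i _ => ?_
  exact lintegral_finsetSum _ (fun j _ => meas_pair w hw i j)

theorem pairs_le (N : ℕ) : 2 * ∑ i : Fin N, (Finset.univ.filter fun j : Fin N => i < j).card ≤
    N ^ 2 := by
  classical
  have h1 : ∑ i : Fin N, (Finset.univ.filter fun j : Fin N => i < j).card =
      ∑ i : Fin N, (Finset.univ.filter fun j : Fin N => j < i).card := by
    simp_rw [Finset.card_filter]
    exact Finset.sum_comm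
  have h2 : 2 * ∑ i : Fin N, (Finset.univ.filter fun j : Fin N => i < j).card =
      ∑ i : Fin N, ((Finset.univ.filter fun j : Fin N => i < j).card +
        (Finset.univ.filter fun j : Fin N => j < i).card) := by
    rw [Finset.sum_add_distrib, ← h1, two_mul]
  rw [h2]
  have h3 : ∀ i : Fin N, (Finset.univ.filter fun j : Fin N => i < j).card +
      (Finset.univ.filter fun j : Fin N => j < i).card ≤ N := by
    intro i
    rw [← Finset.card_union_of_disjoint]
    · calc _ ≤ (Finset.univ : Finset (Fin N)).card := Finset.card_le_univ _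
        _ = N := Finset.card_fin N
    · rw [Finset.disjoint_filter]
      intro j _ h4 h5
      exact absurd h4 (not_lt.2 h5.le)
  calc _ ≤ ∑ _i : Fin N, N := Finset.sum_le_sum fun i _ => h3 i
    _ = N ^ 2 := by rw [Finset.sum_const, Finset.card_fin, smul_eq_mul, sq]

theorem trial (hT : S_TF) : S_TRIAL := by
  classical
  intro n L v₁ hL μ K v N hv hv1 hvi
  have hL0 : 0 < L := hL.out
  obtain ⟨hvol, -, -, -, -, -, -, htd⟩ := hT n L
  obtain ⟨hvm, hvle⟩ := htd v hv
  have hLn : 0 < L ^ n := pow_pos hL0 n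
  obtain ⟨a, ha⟩ : ∃ a : ℝ, a = (√((L ^ n) ^ N))⁻¹ := ⟨_, rfl⟩
  have ha0 : 0 < a := by
    rw [ha]
    exact inv_pos.2 (Real.sqrt_pos.2 (pow_pos hLn N))
  have ha2 : a ^ 2 * (L ^ n) ^ N = 1 := by
    rw [ha, inv_pow, Real.sq_sqrt (pow_pos hLn N).le, inv_mul_cancel₀ (pow_pos hLn N).ne']
  have hae : ‖(a : ℂ)‖ₑ ^ 2 = ENNReal.ofReal (a ^ 2) := by
    rw [← ofReal_norm, Complex.norm_real, Real.norm_of_nonneg ha0.le,
      ENNReal.ofReal_pow ha0.le]
  have huniv : (volume : Measure (Fin N → Tor n L)) Set.univ = ENNReal.ofReal (L ^ n) ^ N := by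
    change (Measure.pi fun _ : Fin N => (volume : Measure (Tor n L))) Set.univ = _
    rw [Measure.pi_univ, Finset.prod_const, Finset.card_univ, Fintype.card_fin, hvol]
  refine ⟨fun _ => (a : ℂ), ⟨measurable_const, ⟨‖(a : ℂ)‖, fun _ => le_rfl⟩, fun _ _ => rfl, ?_⟩, ?_⟩
  · rw [lintegral_const, hae, huniv, ← ENNReal.ofReal_pow hLn.le,
      ← ENNReal.ofReal_mul (sq_nonneg a), ha2, ENNReal.ofReal_one]
  · have hz : ‖(a : ℂ) - (a : ℂ)‖ₑ ^ 2 = 0 := by
      rw [sub_self, enorm_zero]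
      norm_num
    have hfirst : enN μ K v (fun _ : Fin N → Tor n L => (a : ℂ)) =
        ∫⁻ x : Fin N → Tor n L, (∑ i : Fin N, ∑ j ∈ Finset.univ.filter fun j => i < j,
          v (tdist (x i) (x j))) * ‖(a : ℂ)‖ₑ ^ 2 := by
      rw [enN]
      simp only [hz, lintegral_zero, mul_zero, iSup_const, Finset.sum_const_zero, zero_add]
    have hsecond := sum_int (N := N) (volume : Measure (Tor n L)) (fun x y => v (tdist x y)) hvm
      (‖(a : ℂ)‖ₑ ^ 2)
    rw [hfirst]
    refine le_trans (le_of_eq hsecond) ?_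
    have hb : ∀ i j : Fin N, i < j → ∫⁻ x : Fin N → Tor n L, v (tdist (x i) (x j)) ≤
        ENNReal.ofReal (v₁ * (L ^ n) ^ N / L ^ n) := by
      intro i j hij
      have h1 := pair_int (volume : Measure (Tor n L)) (fun x y => v (tdist x y)) hvm
        (ENNReal.ofReal v₁) (fun x => (hvle x).trans hvi) i j hij.ne
      rw [hvol, ← ENNReal.ofReal_pow hLn.le, ← ENNReal.ofReal_mul hv1] at h1
      rw [ENNReal.ofReal_div_of_pos hLn, ENNReal.le_div_iff_mul_le
        (Or.inl (by rw [Ne, ENNReal.ofReal_eq_zero]; exact not_le.2 hLn))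
        (Or.inl ENNReal.ofReal_ne_top), mul_comm]
      exact h1
    have hs : ∑ i : Fin N, ∑ j ∈ Finset.univ.filter fun j => i < j,
        ∫⁻ x : Fin N → Tor n L, v (tdist (x i) (x j))
          ∂(Measure.pi fun _ : Fin N => (volume : Measure (Tor n L))) ≤
        ENNReal.ofReal ((N : ℝ) ^ 2 / 2 * (v₁ * (L ^ n) ^ N / L ^ n)) := by
      calc _ ≤ ∑ i : Fin N, ∑ j ∈ Finset.univ.filter fun j => i < j,
            ENNReal.ofReal (v₁ * (L ^ n) ^ N / L ^ n) :=
            Finset.sum_le_sum fun i _ => Finset.sum_le_sum fun j hj =>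
              hb i j (Finset.mem_filter.1 hj).2
        _ = ((∑ i : Fin N, (Finset.univ.filter fun j : Fin N => i < j).card : ℕ) : ℝ≥0∞) *
            ENNReal.ofReal (v₁ * (L ^ n) ^ N / L ^ n) := by
          simp_rw [Finset.sum_const, nsmul_eq_mul]
          rw [Nat.cast_sum, Finset.sum_mul]
        _ ≤ ENNReal.ofReal ((N : ℝ) ^ 2 / 2) * ENNReal.ofReal (v₁ * (L ^ n) ^ N / L ^ n) := by
          apply mul_le_mul_left
          rw [← ENNReal.ofReal_natCast]
          apply ENNReal.ofReal_le_ofReal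
          have h1 := pairs_le N
          have h2 : ((2 * ∑ i : Fin N, (Finset.univ.filter fun j : Fin N => i < j).card : ℕ) : ℝ) ≤
              ((N ^ 2 : ℕ) : ℝ) := by exact_mod_cast h1
          rw [Nat.cast_mul, Nat.cast_pow, Nat.cast_ofNat] at h2
          linarith
        _ = _ := by
          rw [← ENNReal.ofReal_mul (by positivity)]
    refine (mul_le_mul_left hs _).trans ?_
    rw [hae, ← ENNReal.ofReal_mul (by positivity)]
    apply le_of_eq
    congr 1
    calc (N : ℝ) ^ 2 / 2 * (v₁ * (L ^ n) ^ N / L ^ n) * a ^ 2 =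
          (N : ℝ) ^ 2 / 2 * (v₁ * (a ^ 2 * (L ^ n) ^ N) / L ^ n) := by ring
      _ = (N : ℝ) ^ 2 * v₁ / (2 * L ^ n) := by
        rw [ha2]
        field_simp

end Pool.Agent.W880.CB
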