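import Mathlib
import Pool.Agent.W761.CB.Stms
import Pool.Agent.W880.CB.Po2

set_option autoImplicit false

open MeasureTheory
open scoped ENNReal

namespace Pool.Agent.W880.CB

open Pool.Agent.W761.CB

theorem enorm_sq (z : ℂ) : ‖z‖ₑ ^ 2 = ENNReal.ofReal (‖z‖ ^ 2) := by
  rw [← ofReal_norm, ENNReal.ofReal_pow (norm_nonneg z)]

/-- the defect -/
noncomputable def df (a b : ℂ) : ℝ := ‖a‖ * ‖b‖ - ((starRingEnd ℂ) a * b).re

theorem df_nonneg (a b : ℂ) : 0 ≤ df a b := by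
  have h1 : ((starRingEnd ℂ) a * b).re ≤ ‖(starRingEnd ℂ) a * b‖ := Complex.re_le_norm _
  rw [norm_mul, RCLike.norm_conj] at h1
  rw [df]
  linarith

theorem df_mul (s t : ℝ) (hs : 0 ≤ s) (ht : 0 ≤ t) (a b : ℂ) :
    df ((s : ℂ) * a) ((t : ℂ) * b) = s * t * df a b := by
  have h1 : (starRingEnd ℂ) ((s : ℂ) * a) * ((t : ℂ) * b) =
      ((s * t : ℝ) : ℂ) * ((starRingEnd ℂ) a * b) := by
    rw [map_mul, Complex.conj_ofReal]
    push_cast
    ring
  rw [df, df, h1, Complex.re_ofReal_mul, norm_mul, norm_mul, Complex.norm_real, Complex.norm_real,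
    Real.norm_of_nonneg hs, Real.norm_of_nonneg ht]
  ring

theorem sq_norm_sub (a b : ℂ) : ‖a - b‖ ^ 2 =
    ‖((‖a‖ : ℝ) : ℂ) - ((‖b‖ : ℝ) : ℂ)‖ ^ 2 + 2 * df a b := by
  have h1 : ‖((‖a‖ : ℝ) : ℂ) - ((‖b‖ : ℝ) : ℂ)‖ ^ 2 = (‖a‖ - ‖b‖) ^ 2 := by
    rw [← Complex.ofReal_sub, Complex.norm_real, Real.norm_eq_abs, sq_abs]
  rw [h1, df, ← Complex.normSq_eq_norm_sq, Complex.normSq_sub]
  rw [Complex.normSq_eq_norm_sq, Complex.normSq_eq_norm_sq]
  have h2 : (a * (starRingEnd ℂ) b).re = ((starRingEnd ℂ) a * b).re := by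
    rw [← Complex.conj_re (a * (starRingEnd ℂ) b), map_mul, Complex.conj_conj]
  rw [h2]
  ring

theorem measurable_df {T : Type} [MeasurableSpace T] {f g : T → ℂ} (hf : Measurable f)
    (hg : Measurable g) : Measurable fun t => df (f t) (g t) := by
  unfold df
  exact (hf.norm.mul hg.norm).sub
    (Complex.measurable_re.comp ((Complex.continuous_conj.measurable.comp hf).mul hg))

theorem dia_one {X : Type} [MeasurableSpace X] (ν : Measure X) [IsFiniteMeasure ν] (f : X → ℂ)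
    (hfm : Measurable f) (hf : Integrable f ν) :
    ENNReal.ofReal ((∫ x, ‖f x‖ ∂ν) ^ 2) = ENNReal.ofReal (‖∫ x, f x ∂ν‖ ^ 2) +
      ∫⁻ x, ∫⁻ y, ENNReal.ofReal (df (f x) (f y)) ∂ν ∂ν := by
  have h1 : Integrable (fun z : X × X => ‖f z.1‖ * ‖f z.2‖) (ν.prod ν) := hf.norm.mul_prod hf.norm
  have hc : Integrable (fun x => (starRingEnd ℂ) (f x)) ν := by
    have := hf.norm
    refine (hf.norm).mono' ((Complex.continuous_conj.measurable.comp hfm).aestronglyMeasurable) ?_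
    exact Filter.Eventually.of_forall fun x => by
      rw [RCLike.norm_conj]
  have h2 : Integrable (fun z : X × X => (starRingEnd ℂ) (f z.1) * f z.2) (ν.prod ν) :=
    hc.mul_prod hf
  have h3 : Integrable (fun z : X × X => df (f z.1) (f z.2)) (ν.prod ν) := h1.sub h2.re
  have h4 : ∫ z : X × X, df (f z.1) (f z.2) ∂(ν.prod ν) =
      (∫ x, ‖f x‖ ∂ν) ^ 2 - ‖∫ x, f x ∂ν‖ ^ 2 := by
    have h5 : ∫ z : X × X, df (f z.1) (f z.2) ∂(ν.prod ν) =
        (∫ z : X × X, ‖f z.1‖ * ‖f z.2‖ ∂(ν.prod ν)) -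
          ∫ z : X × X, ((starRingEnd ℂ) (f z.1) * f z.2).re ∂(ν.prod ν) := integral_sub h1 h2.re
    have h6 : ∫ z : X × X, ((starRingEnd ℂ) (f z.1) * f z.2).re ∂(ν.prod ν) =
        (∫ z : X × X, (starRingEnd ℂ) (f z.1) * f z.2 ∂(ν.prod ν)).re := integral_re h2
    rw [h5, h6, integral_prod_mul (fun x => ‖f x‖) (fun x => ‖f x‖),
      integral_prod_mul (fun x => (starRingEnd ℂ) (f x)) f, integral_conj, ← sq]
    congr 1
    rw [mul_comm, Complex.mul_conj, Complex.ofReal_re, Complex.normSq_eq_norm_sq]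
  have h7 : ∫⁻ x, ∫⁻ y, ENNReal.ofReal (df (f x) (f y)) ∂ν ∂ν =
      ENNReal.ofReal (∫ z : X × X, df (f z.1) (f z.2) ∂(ν.prod ν)) := by
    rw [ofReal_integral_eq_lintegral_ofReal h3 (Filter.Eventually.of_forall fun z =>
      df_nonneg _ _), lintegral_prod]
    exact ((measurable_df (hfm.comp measurable_fst) (hfm.comp measurable_snd)).ennreal_ofReal).aemeasurable
  rw [h7, ← ENNReal.ofReal_add (sq_nonneg _) (integral_nonneg fun z => df_nonneg _ _), h4]
  congr 1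
  ring

theorem dia0 : S_DIA0 := by
  intro X _ ν _ F hF
  have hfin : IsFiniteMeasure (lam ν) := (lamAll X ν).2.1
  obtain ⟨-, -, -, hag, hmeas, -, -, -, -, -, -, -⟩ := ebcAll X ν F F hF hF
  have hab : ∀ S, ‖absv F S‖ₑ = ‖F S‖ₑ := by
    intro S
    rw [absv, ← ofReal_norm, ← ofReal_norm, Complex.norm_real, norm_norm]
  refine ⟨?_, ?_, ?_, ?_⟩
  · exact lintegral_congr fun γ => by rw [hab]
  · refine lintegral_congr fun x => lintegral_congr fun γ => ?_
    change ‖absv F (x ::ₘ ms γ)‖ₑ ^ 2 = ‖F (x ::ₘ ms γ)‖ₑ ^ 2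
    rw [hab]
  · intro x y
    refine lintegral_congr fun γ => ?_
    change ‖absv F (x ::ₘ y ::ₘ ms γ)‖ₑ ^ 2 = ‖F (x ::ₘ y ::ₘ ms γ)‖ₑ ^ 2
    rw [hab]
  · have hm1 : Measurable fun q : (X × X) × Cf X => F (q.1.1 ::ₘ ms q.2) := by
      have h : Measurable fun q : (X × X) × Cf X => ((q.1.1, q.2) : X × Cf X) :=
        measurable_fst.fst.prodMk measurable_snd
      exact (hmeas.comp h :)
    have hm2 : Measurable fun q : (X × X) × Cf X => F (q.1.2 ::ₘ ms q.2) := by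
      have h : Measurable fun q : (X × X) × Cf X => ((q.1.2, q.2) : X × Cf X) :=
        measurable_fst.snd.prodMk measurable_snd
      exact (hmeas.comp h :)
    have hm : Measurable fun q : (X × X) × Cf X =>
        ENNReal.ofReal (df (F (q.1.1 ::ₘ ms q.2)) (F (q.1.2 ::ₘ ms q.2))) :=
      (measurable_df hm1 hm2).ennreal_ofReal
    refine ⟨fun x y => ∫⁻ γ, ENNReal.ofReal (df (F (x ::ₘ ms γ)) (F (y ::ₘ ms γ))) ∂(lam ν),
      hm.lintegral_prod_right', ?_, ?_⟩
    · intro x y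
      have hxy : Measurable fun γ : Cf X =>
          ENNReal.ofReal (df (F (x ::ₘ ms γ)) (F (y ::ₘ ms γ))) := by
        have h : Measurable fun γ : Cf X => (((x, y), γ) : (X × X) × Cf X) :=
          measurable_const.prodMk measurable_id
        exact (hm.comp h :)
      rw [← lintegral_const_mul _ hxy]
      change ∫⁻ γ, ‖F (x ::ₘ ms γ) - F (y ::ₘ ms γ)‖ₑ ^ 2 ∂(lam ν) =
        (∫⁻ γ, ‖absv F (x ::ₘ ms γ) - absv F (y ::ₘ ms γ)‖ₑ ^ 2 ∂(lam ν)) +
        ∫⁻ γ, 2 * ENNReal.ofReal (df (F (x ::ₘ ms γ)) (F (y ::ₘ ms γ))) ∂(lam ν)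
      rw [← lintegral_add_right _ (hxy.const_mul 2)]
      refine lintegral_congr fun γ => ?_
      rw [enorm_sq, enorm_sq, sq_norm_sub, ENNReal.ofReal_add (sq_nonneg _)
        (mul_nonneg zero_le_two (df_nonneg _ _)), ENNReal.ofReal_mul zero_le_two,
        ENNReal.ofReal_ofNat]
      rfl
    · intro u hu hu0 huC
      obtain ⟨C, hC⟩ := huC
      obtain ⟨B, b, hB, hb, hbd⟩ := hF.bdd
      have hmx : ∀ γ : Cf X, Measurable fun x => F (x ::ₘ ms γ) := by
        intro γ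
        have h : Measurable fun x : X => ((x, γ) : X × Cf X) :=
          measurable_id.prodMk measurable_const
        exact (hmeas.comp h :)
      have hfm : ∀ γ : Cf X, Measurable fun x => (u x : ℂ) * F (x ::ₘ ms γ) := fun γ =>
        (Complex.measurable_ofReal.comp hu).mul (hmx γ)
      have hfi : ∀ γ : Cf X, Integrable (fun x => (u x : ℂ) * F (x ::ₘ ms γ)) ν := by
        intro γ
        refine Integrable.of_bound (hfm γ).aestronglyMeasurable
          (C * (B * b ^ (Multiset.card (ms γ) + 1))) ?_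
        refine Filter.Eventually.of_forall fun x => ?_
        rw [norm_mul, Complex.norm_real, Real.norm_of_nonneg (hu0 x)]
        have h := hbd (x ::ₘ ms γ)
        rw [Multiset.card_cons] at h
        exact mul_le_mul (hC x) h (norm_nonneg _) ((hu0 x).trans (hC x))
      have hpt : ∀ γ : Cf X, ‖ag ν u (absv F) (ms γ)‖ₑ ^ 2 = ‖ag ν u F (ms γ)‖ₑ ^ 2 +
          ∫⁻ x, ∫⁻ y, ENNReal.ofReal (u x * u y) *
            ENNReal.ofReal (df (F (x ::ₘ ms γ)) (F (y ::ₘ ms γ))) ∂ν ∂ν := by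
        intro γ
        have h1 := dia_one ν (fun x => (u x : ℂ) * F (x ::ₘ ms γ)) (hfm γ) (hfi γ)
        have h2 : ag ν u (absv F) (ms γ) =
            ((∫ x, ‖(u x : ℂ) * F (x ::ₘ ms γ)‖ ∂ν : ℝ) : ℂ) := by
          rw [← integral_complex_ofReal]
          refine integral_congr_ae (Filter.Eventually.of_forall fun x => ?_)
          change (u x : ℂ) * ((‖F (x ::ₘ ms γ)‖ : ℝ) : ℂ) =
            ((‖(u x : ℂ) * F (x ::ₘ ms γ)‖ : ℝ) : ℂ)
          rw [norm_mul, Complex.norm_real, Real.norm_of_nonneg (hu0 x)]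
          push_cast
          rfl
        rw [enorm_sq, enorm_sq, h2, Complex.norm_real, Real.norm_eq_abs, sq_abs, h1]
        congr 1
        refine lintegral_congr fun x => lintegral_congr fun y => ?_
        rw [df_mul _ _ (hu0 x) (hu0 y), ENNReal.ofReal_mul (mul_nonneg (hu0 x) (hu0 y))]
      have hagm : Measurable fun γ : Cf X => ‖ag ν u F (ms γ)‖ₑ ^ 2 := by
        have h := (hag u hu ⟨C, fun x => by rw [abs_of_nonneg (hu0 x)]; exact hC x⟩).meas
        exact h.enorm.pow_const 2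
      change ∫⁻ γ, ‖ag ν u (absv F) (ms γ)‖ₑ ^ 2 ∂(lam ν) =
        (∫⁻ γ, ‖ag ν u F (ms γ)‖ₑ ^ 2 ∂(lam ν)) + _
      simp_rw [hpt]
      rw [lintegral_add_left hagm]
      congr 1
      have hg : Measurable fun q : (X × X) × Cf X => ENNReal.ofReal (u q.1.1 * u q.1.2) *
          ENNReal.ofReal (df (F (q.1.1 ::ₘ ms q.2)) (F (q.1.2 ::ₘ ms q.2))) :=
        (((hu.comp measurable_fst.fst).mul (hu.comp measurable_fst.snd)).ennreal_ofReal).mul hm
      have h3 := tonelli3 ν ν (lam ν) (fun x y γ => ENNReal.ofReal (u x * u y) *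
        ENNReal.ofReal (df (F (x ::ₘ ms γ)) (F (y ::ₘ ms γ)))) hg
      rw [← h3]
      refine lintegral_congr fun x => lintegral_congr fun y => ?_
      exact lintegral_const_mul' _ _ ENNReal.ofReal_ne_top

end Pool.Agent.W880.CB
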