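import Mathlib
import Pool.Agent.W761.CB.Stms

set_option autoImplicit false

open MeasureTheory
open scoped ENNReal

namespace Pool.Agent.W880.CB

open Pool.Agent.W761.CB

theorem measurableSet_cube (n : ℕ) (r : ℝ) : MeasurableSet (cube n r) := by
  have h : cube n r = ⋂ c, {z : Fin n → ℝ | |z c| ≤ r} := by
    ext z
    rw [Set.mem_iInter]
    exact Iff.rfl
  rw [h]
  refine MeasurableSet.iInter fun c => ?_
  exact measurableSet_le ((measurable_pi_apply c).abs) measurable_const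

theorem el_le {n : ℕ} {r : ℝ} (hr : 0 ≤ r) {z : Fin n → ℝ} (hz : z ∈ cube n r) :
    el z ≤ √n * r := by
  rw [el]
  have h1 : ∑ c, z c ^ 2 ≤ ∑ _c : Fin n, r ^ 2 := by
    refine Finset.sum_le_sum fun c _ => ?_
    rw [← sq_abs (z c)]
    exact pow_le_pow_left₀ (abs_nonneg _) (hz c) 2
  rw [Finset.sum_const, Finset.card_univ, Fintype.card_fin, nsmul_eq_mul] at h1
  calc √(∑ c, z c ^ 2) ≤ √((n : ℝ) * r ^ 2) := Real.sqrt_le_sqrt h1
    _ = √n * r := by
      rw [Real.sqrt_mul (Nat.cast_nonneg n), Real.sqrt_sq hr]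

theorem pok : S_POK := by
  intro n L m c _ μ K hc hm hK hKm f hf hfb r hr hrL
  have hr0 : 0 < r := by linarith
  have hs : 0 ≤ √(n : ℝ) := Real.sqrt_nonneg _
  obtain ⟨b, hb⟩ : ∃ b : ℝ, b = (1 + √(n : ℝ)) * r := ⟨_, rfl⟩
  have hb0 : 0 < b := by
    rw [hb]
    positivity
  obtain ⟨a, ha⟩ : ∃ a : ℝ, a = c * b ^ (-((n : ℝ) + m)) := ⟨_, rfl⟩
  have ha0 : 0 < a := by
    rw [ha]
    exact mul_pos hc (Real.rpow_pos_of_pos hb0 _)
  have hKa : ∀ z ∈ cube n r, ENNReal.ofReal a ≤ K z := by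
    intro z hz
    refine le_trans (ENNReal.ofReal_le_ofReal ?_) (hK z)
    rw [ha]
    apply mul_le_mul_of_nonneg_left _ hc.le
    have hel : 0 ≤ el z := Real.sqrt_nonneg _
    apply Real.rpow_le_rpow_of_nonpos (by linarith)
    · have h1 := el_le hr0.le hz
      rw [hb]
      nlinarith
    · have : (0 : ℝ) ≤ n := Nat.cast_nonneg n
      linarith
  have h1 : ENNReal.ofReal a * ∫⁻ z in cube n r, d1 f (pr L z) ≤ ∫⁻ z, K z * d1 f (pr L z) := by
    rw [← lintegral_const_mul' _ _ ENNReal.ofReal_ne_top]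
    refine le_trans (setLIntegral_mono' (measurableSet_cube n r)
      (g := fun z => K z * d1 f (pr L z)) fun z hz => ?_) (setLIntegral_le_lintegral _ _)
    exact mul_le_mul_left (hKa z hz) _
  have hC : 2 * (1 + √(n : ℝ)) ^ ((n : ℝ) + m) / c * r ^ ((n : ℝ) + m) = 2 / a := by
    have h2 : b ^ ((n : ℝ) + m) = (1 + √(n : ℝ)) ^ ((n : ℝ) + m) * r ^ ((n : ℝ) + m) := by
      rw [hb, Real.mul_rpow (by positivity) hr0.le]
    rw [ha, Real.rpow_neg hb0.le, h2]
    have h3 : 0 < (1 + √(n : ℝ)) ^ ((n : ℝ) + m) := Real.rpow_pos_of_pos (by positivity) _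
    have h4 : 0 < r ^ ((n : ℝ) + m) := Real.rpow_pos_of_pos hr0 _
    field_simp
  rw [hC]
  have hne : ENNReal.ofReal a ≠ 0 := by
    rw [Ne, ENNReal.ofReal_eq_zero]
    exact not_le.2 ha0
  have h5 : ∫⁻ z in cube n r, d1 f (pr L z) ≤
      (ENNReal.ofReal a)⁻¹ * ∫⁻ z, K z * d1 f (pr L z) := by
    rw [mul_comm, ← div_eq_mul_inv, ENNReal.le_div_iff_mul_le (Or.inl hne)
      (Or.inl ENNReal.ofReal_ne_top), mul_comm]
    exact h1
  refine h5.trans ?_
  have h6 : ENNReal.ofReal (2 / a) = (ENNReal.ofReal a)⁻¹ * 2 := by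
    rw [div_eq_mul_inv, ENNReal.ofReal_mul (by norm_num), ENNReal.ofReal_inv_of_pos ha0, mul_comm,
      ENNReal.ofReal_ofNat]
  rw [h6, mul_assoc]
  refine mul_le_mul_right ?_ _
  rw [ken1, mul_add, ← mul_assoc 2 (2⁻¹ : ℝ≥0∞),
    ENNReal.mul_inv_cancel (by norm_num) (by norm_num), one_mul]
  exact le_add_self

end Pool.Agent.W880.CB
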